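import Pool.Agent.H200M.Stm
import Pool.Agent.Q195.PK.Greedy

set_option autoImplicit false

/-! Jobs MC5 (GreedyR) and MC6 (PackR) of project MC (helper200). -/

namespace Pool.Agent.Q186.MC

open Pool.Agent.H200P Pool.Agent.H200M Pool.Agent.Q195.PK

theorem greedyR : S_GreedyR := by
  intro G ρ b0 D0 hG hρ2 hρ7 P
  induction hn : P.length using Nat.strong_induction_on generalizing P with
  | _ n ih =>
  intro β0 b hb14 hbD0 hβ0 hβb0 hsort hle hineq
  have hbpos : 0 < b := by linarith
  have hρ0 : 0 < ρ := by linarith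
  have hb00 : 0 ≤ b0 := hβ0.trans hβb0
  have hD4 : ρ * (4 * b0 + 1) ≤ b := by
    have h1 : 0 ≤ (P.map fun p => (((max p.1 p.2 : ℕ) : ℝ) + 16 * G) ^ 2).sum := by
      apply List.sum_nonneg
      intro x hx
      rw [List.mem_map] at hx
      obtain ⟨p, _, rfl⟩ := hx
      positivity
    have h2 : 0 ≤ 2 * β0 * D0 := by
      have : 0 ≤ D0 := by linarith
      positivity
    have h3 : (4 * b0 + 1) * b ≤ b ^ 2 / ρ := by linarith
    rw [le_div_iff₀ hρ0] at h3
    have h4 : (ρ * (4 * b0 + 1)) * b ≤ b * b := by nlinarith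
    exact le_of_mul_le_mul_right h4 hbpos
  cases P with
  | nil => exact ⟨[], by change 14 * G ≤ b; exact hb14, rfl⟩
  | cons p P =>
    set β : ℕ × ℕ → ℝ := fun p => ((max p.1 p.2 : ℕ) : ℝ) + 16 * G with hβ
    set w := β p with hw
    have hwb : w ≤ β0 := hle p List.mem_cons_self
    have hw0 : 16 * G ≤ w := by
      rw [hw, hβ]
      have : (0 : ℝ) ≤ ((max p.1 p.2 : ℕ) : ℝ) := Nat.cast_nonneg _
      simp only
      linarith
    have hwb0 : w ≤ b0 := hwb.trans hβb0
    have hw00 : 0 ≤ w := by linarith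
    have hρw : 0 ≤ ρ * w := by positivity
    have h2w : 2 * w ≤ ρ * w := mul_le_mul_of_nonneg_right hρ2 hw00
    have hρwb0 : ρ * w ≤ ρ * b0 := mul_le_mul_of_nonneg_left hwb0 hρ0.le
    have hhead : ∀ q ∈ p :: P, β q ≤ w := by
      intro q hq
      rcases List.mem_cons.mp hq with h | h
      · rw [h]
      · have := (List.pairwise_cons.mp hsort).1 q h
        rw [hw, hβ]
        have : ((max q.1 q.2 : ℕ) : ℝ) ≤ ((max p.1 p.2 : ℕ) : ℝ) := by exact_mod_cast this
        simp only
        linarith
    obtain ⟨T, Q, hTQ, hT, hQ⟩ := split_list β (p :: P) (b - ρ * w - w - 1) (by nlinarith)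
    have hTne : T ≠ [] := by
      rintro rfl
      rw [List.nil_append] at hTQ
      rcases hQ with h | ⟨q, Q', h1, h2⟩
      · rw [← hTQ] at h
        exact List.cons_ne_nil _ _ h
      · rw [← hTQ] at h1
        have := (List.cons.inj h1).1
        rw [← this] at h2
        simp only [List.map_nil, List.sum_nil, zero_add] at h2
        nlinarith
    have hTmem : ∀ q ∈ T, q ∈ p :: P := by
      intro q hq
      rw [hTQ]
      exact List.mem_append_left _ hq
    have hslab : 15 * G ≤ w - G ∧
        (∀ q ∈ T, (q.1 : ℝ) + 2 + 13 * G ≤ w - G ∧ (q.2 : ℝ) + 2 + 13 * G ≤ w - G) ∧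
        ρ * (w - G + G) + (w - G + G) + 1 + (T.map (ht G)).sum ≤ b := by
      refine ⟨by linarith, ?_, ?_⟩
      · intro q hq
        have h1 := hhead q (hTmem q hq)
        rw [hβ] at h1
        simp only at h1
        have h2 : (q.1 : ℝ) ≤ ((max q.1 q.2 : ℕ) : ℝ) := by exact_mod_cast le_max_left _ _
        have h3 : (q.2 : ℝ) ≤ ((max q.1 q.2 : ℕ) : ℝ) := by exact_mod_cast le_max_right _ _
        constructor <;> linarith
      · have := sum_ht_le hG T
        rw [sub_add_cancel]
        linarith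
    rcases hQ with hQ | ⟨q, Q', hQ, hq⟩
    · refine ⟨[(w - G, T)], ?_, ?_⟩
      · refine ⟨hslab.1, hslab.2.1, hslab.2.2, ?_⟩
        change 14 * G ≤ b - ρ * (w - G + G)
        rw [sub_add_cancel]
        nlinarith
      · rw [hTQ, hQ]
        simp
    · have hqmem : q ∈ p :: P := by
        rw [hTQ, hQ]
        exact List.mem_append_right _ List.mem_cons_self
      have hqw := hhead q hqmem
      have hq0 : 0 ≤ β q := by
        rw [hβ]
        positivity
      have hpair : (T ++ Q).Pairwise fun p q => max q.1 q.2 ≤ max p.1 p.2 := by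
        rw [← hTQ]; exact hsort
      rw [List.pairwise_append] at hpair
      have hTq : ∀ x ∈ T, β q ≤ β x := by
        intro x hx
        have := hpair.2.2 x hx q (by rw [hQ]; exact List.mem_cons_self)
        rw [hβ]
        have : ((max q.1 q.2 : ℕ) : ℝ) ≤ ((max x.1 x.2 : ℕ) : ℝ) := by exact_mod_cast this
        simp only
        linarith
      have hQq : ∀ x ∈ Q, β x ≤ β q := by
        intro x hx
        rw [hQ] at hx
        rcases List.mem_cons.mp hx with h | h
        · rw [h]
        · have h2 := hpair.2.1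
          rw [hQ] at h2
          have := (List.pairwise_cons.mp h2).1 x h
          rw [hβ]
          have : ((max x.1 x.2 : ℕ) : ℝ) ≤ ((max q.1 q.2 : ℕ) : ℝ) := by exact_mod_cast this
          simp only
          linarith
      have hlen : Q.length < n := by
        rw [← hn, hTQ, List.length_append]
        have : 0 < T.length := List.length_pos_iff.mpr hTne
        omega
      have hS := sum_ge β (β q) hq0 T hTq
      have hsum : ((p :: P).map fun p => (((max p.1 p.2 : ℕ) : ℝ) + 16 * G) ^ 2).sum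
          = (T.map fun x => β x ^ 2).sum + (Q.map fun x => β x ^ 2).sum := by
        rw [hTQ, List.map_append, List.sum_append]
      rw [hsum] at hineq
      have key : 2 * (Q.map fun x => β x ^ 2).sum + 2 * β q * D0 +
          (4 * b0 + 1) * (b - ρ * w) ≤ (b - ρ * w) ^ 2 / ρ := by
        set S := (T.map β).sum with hSdef
        have e0 : (b - ρ * w) ^ 2 / ρ = b ^ 2 / ρ - 2 * w * b + ρ * w ^ 2 := by
          field_simp
          ring
        rw [e0]
        have h1 : β q * (b - ρ * w - w - 1) ≤ β q * (S + β q) :=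
          mul_le_mul_of_nonneg_left hq.le hq0
        have h2 : w * D0 ≤ β0 * D0 := mul_le_mul_of_nonneg_right hwb (by linarith)
        have h3 : 0 ≤ (w - β q) * (D0 - b) := mul_nonneg (by linarith) (by linarith)
        have h5 : β q * β q ≤ w * w := mul_le_mul hqw hqw hq0 hw00
        have h4 : β q * w ≤ w * w := mul_le_mul_of_nonneg_right hqw hw00
        have h6 : β q * (ρ * w) ≤ w * (ρ * w) := mul_le_mul_of_nonneg_right hqw hρw
        have h7 : w * (ρ * w) ≤ b0 * (ρ * w) := mul_le_mul_of_nonneg_right hwb0 hρw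
        have h8 : 2 * (w * w) ≤ ρ * (w * w) :=
          mul_le_mul_of_nonneg_right hρ2 (mul_nonneg hw00 hw00)
        nlinarith
      have hb'14 : 14 * G ≤ b - ρ * w := by nlinarith
      obtain ⟨L, hL1, hL2⟩ := ih Q.length hlen Q rfl (β q) (b - ρ * w) hb'14 (by linarith) hq0
        (hqw.trans hwb0) hpair.2.1 hQq key
      refine ⟨(w - G, T) :: L, ?_, ?_⟩
      · refine ⟨hslab.1, hslab.2.1, hslab.2.2, ?_⟩
        rw [sub_add_cancel]
        exact hL1
      · rw [List.map_cons, List.flatten_cons, hL2, hTQ]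

theorem packR : S_PackR := by
  intro hgr G ρ b m1 K hG hρ2 hρ7 hb14 hK hineq
  set l := K.sort (fun a b : ℕ => b ≤ a) with hl
  have hlK : (l : Multiset ℕ) = K := Multiset.sort_eq _ _
  have hls : l.Pairwise fun a b => b ≤ a := Multiset.pairwise_sort _ _
  have hlm : ∀ x ∈ l, x ≤ m1 := by
    intro x hx
    apply hK
    rw [← hlK]
    exact hx
  have hsum := prs_sum (by linarith : (0 : ℝ) ≤ G) l m1 hls hlm
  have hKl : qG G K = (l.map fun m : ℕ => ((m : ℝ) + 16 * G) ^ 2).sum := by
    unfold qG
    rw [← hlK, Multiset.map_coe, Multiset.sum_coe]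
  rw [hKl] at hineq
  set b0 : ℝ := m1 + 16 * G with hb0
  have hb00 : 0 ≤ b0 := by positivity
  obtain ⟨L, h1, h2⟩ := hgr (b0 := b0) (D0 := b) hG hρ2 hρ7 (prs l) b0 b hb14 le_rfl hb00 le_rfl
    (prs_sorted l hls) (by
      intro p hp
      have h3 := mem_prs l p hp
      have h4 : p.1 ≤ m1 := hlm _ h3.1
      have h5 : p.2 ≤ m1 := by
        rcases h3.2 with h6 | h6
        · exact hlm _ h6
        · rw [h6]; exact Nat.zero_le _
      have h6 : ((max p.1 p.2 : ℕ) : ℝ) ≤ m1 := by exact_mod_cast max_le h4 h5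
      rw [hb0]
      linarith) (by linarith)
  refine ⟨L, h1, ?_⟩
  rw [pmT_eq, h2]
  have := pm_prs l
  rw [hlK] at this
  exact this

end Pool.Agent.Q186.MC
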